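import Pool.Agent.Helper96.Kod.Goals

/-! Packet K1 of MP_5ff3c6_ag: separation of the values of a family by weighted power sums. -/

open scoped Topology
open Filter

namespace Pool.Agent.Helper22.Kod

open Pool.Agent.Helper96.Kod

universe u

theorem bdd {ι : Type u} {B : ι → ℂ} (hB : Tendsto B cofinite (𝓝 0)) :
    ∃ M : ℝ, 0 ≤ M ∧ ∀ s, ‖B s‖ ≤ M := by
  have h1 : ∀ᶠ s in cofinite, ‖B s‖ < 1 := by
    have := hB.norm
    rw [norm_zero] at this
    exact this.eventually (gt_mem_nhds one_pos)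
  rw [Filter.eventually_cofinite] at h1
  obtain ⟨M, hM⟩ := (h1.image (fun s => ‖B s‖)).bddAbove
  refine ⟨max M 1, le_trans zero_le_one (le_max_right _ _), fun s => ?_⟩
  by_cases hs : ‖B s‖ < 1
  · exact hs.le.trans (le_max_right _ _)
  · exact (hM ⟨s, hs, rfl⟩).trans (le_max_left _ _)

theorem poly_bdd (P : Polynomial ℂ) {M : ℝ} (hM : 0 ≤ M) {x : ℂ} (hx : ‖x‖ ≤ M) :
    ‖P.eval x‖ ≤ ∑ i ∈ Finset.range (P.natDegree + 1), ‖P.coeff i‖ * M ^ i := by
  rw [Polynomial.eval_eq_sum_range]
  refine (norm_sum_le _ _).trans (Finset.sum_le_sum fun i _ => ?_)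
  rw [norm_mul, norm_pow]
  exact mul_le_mul_of_nonneg_left (pow_le_pow_left₀ (norm_nonneg _) hx i) (norm_nonneg _)

theorem poly_tsum {ι : Type u} {B e : ι → ℂ} (he : Summable fun s => ‖e s‖)
    (hB : Tendsto B cofinite (𝓝 0)) (h0 : ∀ l : ℕ, ∑' s, B s ^ l * e s = 0) (P : Polynomial ℂ) :
    ∑' s, P.eval (B s) * e s = 0 := by
  obtain ⟨M, hM, hBM⟩ := bdd hB
  have hsum : ∀ i : ℕ, Summable fun s => B s ^ i * e s := by
    intro i
    refine Summable.of_norm_bounded (he.mul_left (M ^ i)) fun s => ?_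
    rw [norm_mul, norm_pow]
    exact mul_le_mul_of_nonneg_right (pow_le_pow_left₀ (norm_nonneg _) (hBM s) i) (norm_nonneg _)
  have h1 : (fun s => P.eval (B s) * e s) =
      fun s => ∑ i ∈ Finset.range (P.natDegree + 1), P.coeff i * (B s ^ i * e s) := by
    funext s
    rw [Polynomial.eval_eq_sum_range, Finset.sum_mul]
    exact Finset.sum_congr rfl fun i _ => by ring
  rw [h1, Summable.tsum_finsetSum (fun i _ => (hsum i).mul_left _)]
  refine Finset.sum_eq_zero fun i _ => ?_
  rw [tsum_mul_left, h0, mul_zero]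

theorem stmtK1 : StmtK1.{u} := by
  classical
  intro ι B e he hB h0 β hβ
  have hβn : 0 < ‖β‖ := norm_pos_iff.2 hβ
  have h1 : ∀ᶠ s in cofinite, ‖B s‖ < ‖β‖ := by
    have := hB.norm
    rw [norm_zero] at this
    exact this.eventually (gt_mem_nhds hβn)
  rw [Filter.eventually_cofinite] at h1
  set F : Finset ι := h1.toFinset with hF
  have hFm : ∀ s, s ∈ F ↔ ‖β‖ ≤ ‖B s‖ := by
    intro s
    rw [hF, Set.Finite.mem_toFinset, Set.mem_ofPred_eq, not_lt]
  set V : Finset ℂ := (F.image B).erase β with hV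
  set P : Polynomial ℂ := ∏ γ ∈ V, (Polynomial.C (β - γ)⁻¹ * (Polynomial.X - Polynomial.C γ))
    with hP
  have hPβ : P.eval β = 1 := by
    rw [hP, Polynomial.eval_prod]
    refine Finset.prod_eq_one fun γ hγ => ?_
    rw [Polynomial.eval_mul, Polynomial.eval_C, Polynomial.eval_sub, Polynomial.eval_X,
      Polynomial.eval_C]
    exact inv_mul_cancel₀ (sub_ne_zero.2 (Finset.ne_of_mem_erase hγ).symm)
  have hP0 : ∀ s ∈ F, B s ≠ β → P.eval (B s) = 0 := by
    intro s hs hne
    rw [hP, Polynomial.eval_prod]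
    refine Finset.prod_eq_zero (i := B s)
      (Finset.mem_erase.2 ⟨hne, Finset.mem_image_of_mem _ hs⟩) ?_
    simp
  obtain ⟨M, hM, hBM⟩ := bdd hB
  set C : ℝ := ∑ i ∈ Finset.range (P.natDegree + 1), ‖P.coeff i‖ * M ^ i with hC
  have hlim := tendsto_tsum_of_dominated_convergence (𝓕 := atTop)
    (f := fun (L : ℕ) s => (B s / β) ^ L * P.eval (B s) * e s)
    (g := fun s => if B s = β then e s else 0) (bound := fun s => C * ‖e s‖) (he.mul_left C)
    (fun s => ?_) (Eventually.of_forall fun L s => ?_)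
  · have hz : ∀ L : ℕ, ∑' s, (B s / β) ^ L * P.eval (B s) * e s = 0 := by
      intro L
      have h2 := poly_tsum he hB h0 (Polynomial.C (β⁻¹ ^ L) * Polynomial.X ^ L * P)
      rw [← h2]
      refine tsum_congr fun s => ?_
      rw [Polynomial.eval_mul, Polynomial.eval_mul, Polynomial.eval_C, Polynomial.eval_pow,
        Polynomial.eval_X, div_eq_mul_inv, mul_pow]
      ring
    have h3 : (fun L : ℕ => ∑' s, (B s / β) ^ L * P.eval (B s) * e s) = fun _ => 0 :=
      funext hz
    rw [h3] at hlim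
    have h4 := tendsto_nhds_unique hlim tendsto_const_nhds
    have hfin : {s | B s = β}.Finite := by
      refine h1.subset fun s hs => ?_
      rw [Set.mem_ofPred_eq] at hs ⊢
      rw [hs]
      exact lt_irrefl _
    rw [finsum_mem_eq_finite_toFinset_sum _ hfin, ← h4]
    rw [tsum_eq_sum (s := hfin.toFinset)]
    · refine Finset.sum_congr rfl fun s hs => ?_
      rw [Set.Finite.mem_toFinset, Set.mem_ofPred_eq] at hs
      rw [if_pos hs]
    · intro s hs
      rw [Set.Finite.mem_toFinset, Set.mem_ofPred_eq] at hs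
      rw [if_neg hs]
  · by_cases hs : B s = β
    · simp only [hs, if_true, hPβ, div_self hβ, one_pow, one_mul]
      exact tendsto_const_nhds
    · rw [if_neg hs]
      by_cases hsF : s ∈ F
      · simp only [hP0 s hsF hs, mul_zero, zero_mul]
        exact tendsto_const_nhds
      · have h2 : ‖B s / β‖ < 1 := by
          rw [norm_div, div_lt_one hβn]
          exact not_le.1 fun h => hsF ((hFm s).2 h)
        have h3 := (tendsto_pow_atTop_nhds_zero_of_norm_lt_one h2).mul_const
          (P.eval (B s) * e s)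
        rw [zero_mul] at h3
        simpa only [mul_assoc] using h3
  · rw [norm_mul, norm_mul, norm_pow]
    refine mul_le_mul_of_nonneg_right ?_ (norm_nonneg _)
    have hPC : ‖P.eval (B s)‖ ≤ C := poly_bdd P hM (hBM s)
    by_cases hsF : s ∈ F
    · by_cases hs : B s = β
      · rw [hs, div_self hβ, norm_one, one_pow, one_mul, ← hs]
        exact hPC
      · rw [hP0 s hsF hs, norm_zero, mul_zero]
        exact (norm_nonneg _).trans hPC
    · have h2 : ‖B s / β‖ ≤ 1 := by
        rw [norm_div, div_le_one hβn]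
        exact (not_le.1 fun h => hsF ((hFm s).2 h)).le
      exact (mul_le_of_le_one_left (norm_nonneg _) (pow_le_one₀ (norm_nonneg _) h2)).trans hPC

end Pool.Agent.Helper22.Kod
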